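import Pool.Agent.W223.HZ.Stms

set_option autoImplicit false

namespace Pool.Agent.W164.HZ

open Real

theorem expo_bound (σ m u : ℝ) (hσ : 1 / 2 ≤ σ) (h1 : 5 * σ ≤ m) (h2 : m < 5 * σ + 1) :
    σ * (3 * u - m) + (m ^ 2 - m) / 11 - 10 / 11 * u ^ 2 ≤ -(σ ^ 2 / 4) := by
  have hu : 3 * u * σ - 10 / 11 * u ^ 2 ≤ 99 / 40 * σ ^ 2 := by
    nlinarith [sq_nonneg (20 * u - 33 * σ)]
  obtain ⟨r, hr⟩ : ∃ r, m = 5 * σ + r := ⟨m - 5 * σ, by ring⟩
  have hr0 : 0 ≤ r := by linarith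
  have hr1 : r < 1 := by linarith
  have hm : -(m * σ) + (m ^ 2 - m) / 11 ≤ -(30 / 11) * σ ^ 2 := by
    rw [hr]
    have e : -((5 * σ + r) * σ) + ((5 * σ + r) ^ 2 - (5 * σ + r)) / 11 =
        -(30 / 11) * σ ^ 2 + (-(r * σ) - r * (1 - r) - 5 * σ) / 11 := by ring
    rw [e]
    have : 0 ≤ r * σ := mul_nonneg hr0 (by linarith)
    have : 0 ≤ r * (1 - r) := mul_nonneg hr0 (by linarith)
    linarith
  have hs : 0 ≤ σ ^ 2 := sq_nonneg σ
  have e : σ * (3 * u - m) + (m ^ 2 - m) / 11 - 10 / 11 * u ^ 2 =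
      (3 * u * σ - 10 / 11 * u ^ 2) + (-(m * σ) + (m ^ 2 - m) / 11) := by ring
  rw [e]
  linarith

theorem t : Pool.Agent.W223.HZ.StmtPAR := by
  intro C₆ hC
  refine ⟨C₆ ^ 196 + 1, by have := one_le_pow₀ hC (n := 196); linarith, ?_⟩
  intro S σ m hS hσ hm
  have hC0 : 0 < C₆ := by linarith
  have hC196 : 1 ≤ C₆ ^ 196 := one_le_pow₀ hC
  have hS1 : 1 ≤ S := by linarith
  have hS0 : 0 < S := by linarith
  have hm1 : 5 * σ ≤ m := by rw [hm]; exact Nat.le_ceil _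
  have hm2 : (m : ℝ) < 5 * σ + 1 := by rw [hm]; exact Nat.ceil_lt_add_one (by linarith)
  have hmpos : 1 ≤ m := by
    have : (0 : ℝ) < m := by linarith
    exact_mod_cast this
  refine ⟨S ^ (-(σ ^ 2 / 4)), ?_, ?_⟩
  · have h7 : (m : ℝ) ^ 2 ≤ 49 * σ ^ 2 := by
      have : (m : ℝ) ≤ 7 * σ := by linarith
      have h0 : (0 : ℝ) ≤ m := Nat.cast_nonneg m
      nlinarith
    have h1 : C₆ ^ (m ^ 2) ≤ C₆ ^ (49 * σ ^ 2) := by
      have : C₆ ^ (m ^ 2) = C₆ ^ ((m : ℝ) ^ 2) := by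
        rw [← Real.rpow_natCast]; push_cast; rfl
      rw [this]
      exact Real.rpow_le_rpow_of_exponent_le hC h7
    have h2 : C₆ ^ (49 * σ ^ 2) = (C₆ ^ 196) ^ (σ ^ 2 / 4) := by
      rw [← Real.rpow_natCast C₆ 196, ← Real.rpow_mul hC0.le]
      congr 1
      push_cast
      ring
    have h3 : S ^ (-(σ ^ 2 / 4)) = (S ^ (σ ^ 2 / 4))⁻¹ := Real.rpow_neg hS0.le _
    have hσ0 : 0 < σ ^ 2 / 4 := by positivity
    have h4 : (C₆ ^ 196) ^ (σ ^ 2 / 4) < S ^ (σ ^ 2 / 4) :=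
      Real.rpow_lt_rpow (by positivity) (by linarith) hσ0
    have h5 : 0 < S ^ (σ ^ 2 / 4) := Real.rpow_pos_of_pos hS0 _
    rw [h3, ← div_eq_mul_inv, div_lt_one h5]
    exact (h1.trans_eq h2).trans_lt h4
  · intro u _
    have e1 : (S ^ σ) ^ (3 * u - (m : ℤ)) = S ^ (σ * (3 * (u : ℝ) - m)) := by
      rw [← Real.rpow_intCast, ← Real.rpow_mul hS0.le]
      push_cast
      rfl
    have e2 : (S ^ ((1 : ℝ) / 11)) ^ (m * (m - 1)) = S ^ (((m : ℝ) ^ 2 - m) / 11) := by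
      rw [← Real.rpow_natCast, ← Real.rpow_mul hS0.le]
      congr 1
      rw [Nat.cast_mul, Nat.cast_sub hmpos]
      push_cast
      ring
    have e3 : (S ^ ((1 : ℝ) / 11) / S) ^ (u.natAbs ^ 2) = S ^ (-(10 / 11 * (u : ℝ) ^ 2)) := by
      have h1 : S ^ ((1 : ℝ) / 11) / S = S ^ (-(10 : ℝ) / 11) := by
        have : S ^ ((1 : ℝ) / 11) / S ^ (1 : ℝ) = S ^ ((1 : ℝ) / 11 - 1) :=
          (Real.rpow_sub hS0 _ _).symm
        rw [Real.rpow_one] at this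
        rw [this]
        congr 1
        norm_num
      rw [h1, ← Real.rpow_natCast, ← Real.rpow_mul hS0.le]
      congr 1
      have : (((u.natAbs ^ 2 : ℕ)) : ℝ) = (u : ℝ) ^ 2 := by
        rw [Nat.cast_pow, Nat.cast_natAbs, Int.cast_abs, sq_abs]
      rw [this]
      ring
    rw [e1, e2, e3, ← Real.rpow_add hS0, ← Real.rpow_add hS0]
    refine Real.rpow_le_rpow_of_exponent_le hS1 ?_
    have := expo_bound σ m u hσ hm1 hm2
    linarith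

end Pool.Agent.W164.HZ
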